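import Pool.Agent.Helper27K9.FP.All

/-!
# The four-point functions of Hecke-Maass forms at the Planck scale (MP_a54f13_nt)

The plane is `ℂ`, with the upper half plane `HH` and `dμ = dx dy / y²`. `dx f z`, `dy f z` are the
derivatives `fderiv ℝ f z 1`, `fderiv ℝ f z I`; `TF U φ` says that `φ : ℂ → ℝ` is smooth
with compact support contained in `U`. `RO lam f = lam^{-1/2} y (∂x f - i ∂y f)` is the normalised
frame derivative.

The hypothesis `hqe` is quantum unique ergodicity in its microlocal form: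
`∫ φ f (RO^k f) dμ → ∫ φ dμ` for `k = 0`, and `→ 0` for `k ≥ 1`.

For a configuration `v = (v_0, …, v_3)` of four vectors, `C ψ λ f v` is the four-point function
`∫ ψ(z) f(z + (y/√λ) v_0) ⋯ f(z + (y/√λ) v_3) dμ(z)` of `f` at the scale of the wavelength. For the
Gaussian random wave it is `gauss v ∫ ψ dμ`; for a plane wave with direction `ζ` and random phase
(normalised to fourth moment `1`) it is `pw v ζ ∫ ψ dμ`.

The theorem says that for every sequence of forms the four-point functions are those of the Gaussian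
random wave plus a superposition, with weights `a_k ≥ 0`, of the four-point functions of plane waves, up
to a small error, uniformly for bounded configurations; the sum of the weights is the excess of the
fourth moment. In particular the case `n = 4` of the question holds if and only if all four-point
functions at the Planck scale are Gaussian, if and only if (for bounded fourth moments) the
correlation function of `f²` is Gaussian at one single displacement.

Proof idea. Taylor's formula in `L⁴` with the local bounds of the fourth moments of the scaled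
derivatives by the fourth moment of the form, uniformly for bounded configurations, reduces the
four-point functions to the fourth order moments of the `RO^k f`. By the Rellich identities of
Killing fields on the hyperbolic plane (starting file HyperbolicExcess of MP_a52643_an) their
deviations from the Gaussian values are multiples of the deviations `D_l` of `∫ ψ f³ (RO^{2l} f) dμ`,
`l` an integer. By the positivity in the theorem on families of fourth moments, the Fejer sums of the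
`D_l` are almost nonnegative; a quadrature formula gives the weights.
-/

set_option autoImplicit false
open MeasureTheory Filter Topology Complex
open scoped ContDiff

namespace Pool.Agent.Results.MP_a54f13_nt.FourPointFunctions

open Pool.Agent.Helper93K9.PE Pool.Agent.Helper93K9.PE.FinL

/-- the derivative in the direction `1` -/
noncomputable def dx {E : Type} [NormedAddCommGroup E] [NormedSpace ℝ E] (f : ℂ → E) (z : ℂ) : E :=
  fderiv ℝ f z 1

/-- the derivative in the direction `I` -/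
noncomputable def dy {E : Type} [NormedAddCommGroup E] [NormedSpace ℝ E] (f : ℂ → E) (z : ℂ) : E :=
  fderiv ℝ f z I

/-- test functions: smooth with compact support contained in `U` -/
def TF (U : Set ℂ) (φ : ℂ → ℝ) : Prop := ContDiff ℝ ∞ φ ∧ HasCompactSupport φ ∧ tsupport φ ⊆ U

/-- the open upper half plane -/
def HH : Set ℂ := {z | 0 < z.im}

/-- the operator `f ↦ lam^{-1/2} y (∂x f - i ∂y f)` -/
noncomputable def RO (lam : ℝ) (f : ℂ → ℂ) (z : ℂ) : ℂ :=
  ((z.im / √lam : ℝ) : ℂ) * (dx f z - I * dy f z)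

/-- the integral `∫ ψ F dμ` -/
noncomputable def II (ψ F : ℂ → ℝ) : ℝ := ∫ z, ψ z * F z / z.im ^ 2

/-- the four-point function `∫ ψ(z) f(z + (y/√lam) v_0) ⋯ f(z + (y/√lam) v_3) dμ(z)` -/
noncomputable def C (ψ : ℂ → ℝ) (lam : ℝ) (f : ℂ → ℝ) (v : Fin 4 → ℂ) : ℝ :=
  II ψ (fun z => ∏ i, f (z + ((z.im / √lam : ℝ) : ℂ) * v i))

/-- the Bessel function `J₀` -/
noncomputable def J0 (r : ℝ) : ℝ :=
  1 / (2 * Real.pi) * ∫ θ in (0 : ℝ)..(2 * Real.pi), Real.cos (r * Real.cos θ)

/-- the four-point function of the Gaussian random wave -/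
noncomputable def gauss (v : Fin 4 → ℂ) : ℝ :=
  J0 ‖v 0 - v 1‖ * J0 ‖v 2 - v 3‖ + J0 ‖v 0 - v 2‖ * J0 ‖v 1 - v 3‖ +
    J0 ‖v 0 - v 3‖ * J0 ‖v 1 - v 2‖

/-- the four-point function of plane waves with direction `ζ` and random phase -/
noncomputable def pw (v : Fin 4 → ℂ) (ζ : ℂ) : ℝ :=
  (Real.cos ((v 0 + v 1 - v 2 - v 3) * ζ).im + Real.cos ((v 0 + v 2 - v 1 - v 3) * ζ).im +
    Real.cos ((v 0 + v 3 - v 1 - v 2) * ζ).im) / 3

/-- the mean of `pw v ζ` over the directions `ζ` -/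
noncomputable def kap (v : Fin 4 → ℂ) : ℝ :=
  (J0 ‖v 0 + v 1 - v 2 - v 3‖ + J0 ‖v 0 + v 2 - v 1 - v 3‖ + J0 ‖v 0 + v 3 - v 1 - v 2‖) / 3

/-- the configuration `v` rotated by the angle `β` -/
noncomputable def rot (β : ℝ) (v : Fin 4 → ℂ) (i : Fin 4) : ℂ := Complex.exp ((β : ℂ) * I) * v i

/-- the `k`-th of `m` equidistributed directions, `exp(2πik/m)` -/
noncomputable def dir (m k : ℕ) : ℂ := Complex.exp (((2 * Real.pi * k / m : ℝ) : ℂ) * I)

/-- **Result.** Let `f n` be real solutions of `-y²(∂x² + ∂y²) f = λ_n f`, `λ_n = 1/4 + t_n²`, on the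
upper half plane, `t_n → ∞`, satisfying microlocal quantum unique ergodicity.

(A) Let `K` be compact, `ψ ≥ 0` a test function supported in the interior of `K`, `R, ε > 0`. There is an
`m` such that for all large `n` there are weights `a_k ≥ 0` (`k < m`) with sum
`∫ ψ f_n⁴ dμ - 3 ∫ ψ dμ` such that for all configurations `v` with `|v_i| ≤ R`
`C ψ λ_n f_n v = gauss v ∫ ψ dμ + ∑_k a_k pw v (exp(2πik/m))`,
both up to errors at most `ε (1 + ∫_K f_n⁴ dμ)`.

(B) Up to such an error, the mean of the four-point functions over the rotations of a configuration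
`v` is `gauss v ∫ ψ dμ + kap v (∫ ψ f_n⁴ dμ - 3 ∫ ψ dμ)`.

(C) Equivalent are:
(1) `∫ ψ f_n⁴ dμ → 3 ∫ ψ dμ` for all `ψ`;
(2) all four-point functions converge to `gauss v ∫ ψ dμ`, uniformly for bounded `v`, for all `ψ`;
(3) the fourth moments are bounded on compact sets and there is a `w` such that for all `ψ`,
`∫ ψ(z) f_n(z)² f_n(z + (y/√λ_n) w)² dμ(z) → (1 + 2 J₀(|w|)²) ∫ ψ dμ`;
(4) the fourth moments are bounded on compact sets and there is a `v` with `kap v ≠ 0` such that for all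
`ψ` the means of the four-point functions over the rotations of `v` converge to `gauss v ∫ ψ dμ`. -/
theorem result (t : ℕ → ℝ) (ht : Tendsto t atTop atTop) (f : ℕ → ℂ → ℝ)
    (hf : ∀ n, ContDiffOn ℝ ∞ (f n) HH)
    (heq : ∀ n, ∀ z ∈ HH,
      -(z.im ^ 2 * (dx (dx (f n)) z + dy (dy (f n)) z)) = (1 / 4 + t n ^ 2) * f n z)
    (hqe : ∀ φ, TF HH φ → ∀ k : ℕ, Tendsto (fun n => ∫ z, ((φ z / z.im ^ 2 : ℝ) : ℂ) *
      ((f n z : ℂ) * (RO (1 / 4 + t n ^ 2))^[k] (fun w => (f n w : ℂ)) z)) atTop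
      (𝓝 (if k = 0 then ((∫ z, φ z / z.im ^ 2 : ℝ) : ℂ) else 0))) :
    (∀ K : Set ℂ, IsCompact K → K ⊆ HH → ∀ ψ, TF (interior K) ψ → (∀ z, 0 ≤ ψ z) →
      ∀ R : ℝ, 0 < R → ∀ ε : ℝ, 0 < ε → ∃ m : ℕ, ∀ᶠ n in atTop, ∃ a : ℕ → ℝ, (∀ k, 0 ≤ a k) ∧
        |(∑ k ∈ Finset.range m, a k) - (II ψ (fun z => f n z ^ 4) - 3 * II ψ (fun _ => 1))| ≤
          ε * (1 + ∫ z in K, f n z ^ 4 / z.im ^ 2) ∧
        ∀ v : Fin 4 → ℂ, (∀ i, ‖v i‖ ≤ R) →
          |C ψ (1 / 4 + t n ^ 2) (f n) v - (gauss v * II ψ (fun _ => 1) +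
            ∑ k ∈ Finset.range m, a k * pw v (dir m k))| ≤
            ε * (1 + ∫ z in K, f n z ^ 4 / z.im ^ 2)) ∧
    (∀ K : Set ℂ, IsCompact K → K ⊆ HH → ∀ ψ, TF (interior K) ψ → (∀ z, 0 ≤ ψ z) →
      ∀ v : Fin 4 → ℂ, ∀ ε : ℝ, 0 < ε → ∀ᶠ n in atTop,
        |1 / (2 * Real.pi) * (∫ β in (0 : ℝ)..(2 * Real.pi),
          C ψ (1 / 4 + t n ^ 2) (f n) (rot β v)) - (gauss v * II ψ (fun _ => 1) +
            kap v * (II ψ (fun z => f n z ^ 4) - 3 * II ψ (fun _ => 1)))| ≤
          ε * (1 + ∫ z in K, f n z ^ 4 / z.im ^ 2)) ∧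
    List.TFAE [
      ∀ ψ, TF HH ψ → Tendsto (fun n => II ψ (fun z => f n z ^ 4)) atTop (𝓝 (3 * II ψ (fun _ => 1))),
      ∀ ψ, TF HH ψ → ∀ R : ℝ, 0 < R → ∀ ε : ℝ, 0 < ε → ∀ᶠ n in atTop,
        ∀ v : Fin 4 → ℂ, (∀ i, ‖v i‖ ≤ R) →
          |C ψ (1 / 4 + t n ^ 2) (f n) v - gauss v * II ψ (fun _ => 1)| ≤ ε,
      (∀ K : Set ℂ, IsCompact K → K ⊆ HH → ∃ c : ℝ, ∀ᶠ n in atTop, ∫ z in K, f n z ^ 4 ≤ c) ∧
        ∃ w : ℂ, ∀ ψ, TF HH ψ → Tendsto (fun n => II ψ (fun z =>
          f n z ^ 2 * f n (z + ((z.im / √(1 / 4 + t n ^ 2) : ℝ) : ℂ) * w) ^ 2)) atTop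
          (𝓝 ((1 + 2 * J0 ‖w‖ ^ 2) * II ψ (fun _ => 1))),
      (∀ K : Set ℂ, IsCompact K → K ⊆ HH → ∃ c : ℝ, ∀ᶠ n in atTop, ∫ z in K, f n z ^ 4 ≤ c) ∧
        ∃ v : Fin 4 → ℂ, kap v ≠ 0 ∧ ∀ ψ, TF HH ψ → Tendsto (fun n =>
          1 / (2 * Real.pi) * ∫ β in (0 : ℝ)..(2 * Real.pi),
            C ψ (1 / 4 + t n ^ 2) (f n) (rot β v)) atTop
          (𝓝 (gauss v * II ψ (fun _ => 1)))] := by
  have hpos : ∀ n, 0 < 1 / 4 + t n ^ 2 := fun n => by positivity
  have hlam : Tendsto (fun n => 1 / 4 + t n ^ 2) atTop atTop :=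
    tendsto_atTop_add_const_left _ _ ((tendsto_pow_atTop two_ne_zero).comp ht)
  have S : Seq (fun n => 1 / 4 + t n ^ 2) f := by
    refine ⟨hpos, hlam, hf, fun n z hz => ?_, hqe⟩
    have h1 := heq n z hz
    have h2 : Pool.Agent.W745.RW.lap (f n) z = dx (dx (f n)) z + dy (dy (f n)) z := rfl
    rw [h2]; linarith
  -- the integrals
  have eII : ∀ (ψ F : ℂ → ℝ), II ψ F = ∫ z, ψ z / z.im ^ 2 * F z := by
    intro ψ F
    unfold II
    congr 1; funext z; ring
  have e1 : ∀ ψ, II ψ (fun _ => 1) = ∫ z, ψ z / z.im ^ 2 := by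
    intro ψ
    rw [eII]; simp only [mul_one]
  have eh : ∀ n (z : ℂ), z.im / √(1 / 4 + t n ^ 2) = hh (fun n => 1 / 4 + t n ^ 2) n * z.im := by
    intro n z
    unfold hh
    ring
  have eC : ∀ ψ n v, C ψ (1 / 4 + t n ^ 2) (f n) v = Pool.Agent.Helper27K9.FP.C4
      (fun z => ψ z / z.im ^ 2) (hh (fun n => 1 / 4 + t n ^ 2) n) (f n) v := by
    intro ψ n v
    unfold C Pool.Agent.Helper27K9.FP.C4
    rw [eII]
    simp only [eh]
  have him : ContDiff ℝ ∞ (fun z : ℂ => z.im) := imCLM.contDiff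
  have hi : ContDiffOn ℝ ∞ (fun z : ℂ => (z.im ^ 2)⁻¹) HH :=
    (him.pow 2).contDiffOn.inv fun z hz => by
      have : 0 < z.im := hz
      positivity
  -- transfer between `ψ` and `ψ / y²`
  have up : ∀ ψ, TF HH ψ → TF HH (fun z => ψ z / z.im ^ 2) := fun ψ hψ => FinL.tfy hψ
  have dn : ∀ ψ, TF HH ψ → TF HH (fun z => ψ z * z.im ^ 2) := fun ψ hψ => FinL.tfy' hψ
  have yy : ∀ ψ, TF HH ψ → ∀ z, ψ z * z.im ^ 2 / z.im ^ 2 = ψ z := fun ψ hψ z => FinL.yy hψ z
  have nn : ∀ ψ : ℂ → ℝ, (∀ z, 0 ≤ ψ z) → ∀ z : ℂ, 0 ≤ ψ z / z.im ^ 2 := fun ψ h z =>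
    div_nonneg (h z) (sq_nonneg _)
  have upK : ∀ K : Set ℂ, K ⊆ HH → ∀ ψ, TF (interior K) ψ →
      Pool.Agent.W745.RW.TF (interior K) (fun z => ψ z / z.im ^ 2) := by
    intro K hKH ψ hψ
    have hBH : interior K ⊆ HH := interior_subset.trans hKH
    have := Pool.Agent.TH294.RS.TF.mulc isOpen_interior hψ (hi.mono hBH)
    exact this
  -- comparison of the measures on `K`
  have cmpK : ∀ K : Set ℂ, IsCompact K → K ⊆ HH → ∃ c : ℝ, 0 < c ∧ ∀ n,
      1 + ∫ z in K, f n z ^ 4 ≤ c * (1 + ∫ z in K, f n z ^ 4 / z.im ^ 2) := by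
    intro K hK hKH
    obtain ⟨c, hc⟩ := hK.exists_bound_of_continuousOn
      ((him.continuous.pow 2).continuousOn (s := K))
    refine ⟨1 + |c|, by positivity, fun n => ?_⟩
    have cf : ContinuousOn (fun z => f n z ^ 4) K := ((hf n).continuousOn.mono hKH).pow 4
    have h1 : ∫ z in K, f n z ^ 4 ≤ ∫ z in K, |c| * (f n z ^ 4 / z.im ^ 2) := by
      have i1 : IntegrableOn (fun z => f n z ^ 4) K := cf.integrableOn_compact hK
      have i2 : IntegrableOn (fun z => |c| * (f n z ^ 4 / z.im ^ 2)) K := by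
        refine ContinuousOn.integrableOn_compact hK ?_
        refine continuousOn_const.mul (cf.div (him.continuous.pow 2).continuousOn
          fun z hz => ?_)
        have : 0 < z.im := hKH hz
        positivity
      refine setIntegral_mono_on i1 i2 hK.measurableSet fun z hz => ?_
      have h3 : 0 < z.im := hKH hz
      have h4 : z.im ^ 2 ≤ |c| := by
        have h7 : ‖z.im ^ 2‖ ≤ c := hc z hz
        rw [Real.norm_eq_abs, abs_of_nonneg (pow_nonneg h3.le 2)] at h7
        exact h7.trans (le_abs_self c)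
      rw [mul_div_assoc', le_div_iff₀ (pow_pos h3 2), mul_comm]
      exact mul_le_mul_of_nonneg_right h4 (Even.pow_nonneg (by decide) _)
    rw [integral_const_mul] at h1
    have h5 : 0 ≤ |c| := abs_nonneg c
    have h6 : 0 ≤ ∫ z in K, f n z ^ 4 / z.im ^ 2 := integral_nonneg fun z => by positivity
    nlinarith
  refine ⟨fun K hK hKH ψ hψ hψ0 R hR ε hε => ?_, fun K hK hKH ψ hψ hψ0 v ε hε => ?_, ?_⟩
  · obtain ⟨c, hc, hcK⟩ := cmpK K hK hKH
    obtain ⟨m, hm⟩ := Pool.Agent.Helper27K9.FP.AlL.strR S hK hKH (upK K hKH ψ hψ) (nn ψ hψ0) hR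
      (show 0 < ε / c by positivity)
    refine ⟨m, hm.mono fun n hn => ?_⟩
    obtain ⟨a, a0, a1, a2⟩ := hn
    have hX : ε / c * (1 + ∫ z in K, f n z ^ 4) ≤ ε * (1 + ∫ z in K, f n z ^ 4 / z.im ^ 2) := by
      calc ε / c * (1 + ∫ z in K, f n z ^ 4) ≤
            ε / c * (c * (1 + ∫ z in K, f n z ^ 4 / z.im ^ 2)) :=
            mul_le_mul_of_nonneg_left (hcK n) (by positivity)
        _ = _ := by field_simp
    refine ⟨a, a0, ?_, fun v hv => ?_⟩
    · rw [eII, e1]
      exact a1.trans hX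
    · rw [eC, e1]
      exact (a2 v hv).trans hX
  · obtain ⟨c, hc, hcK⟩ := cmpK K hK hKH
    filter_upwards [Pool.Agent.Helper27K9.FP.AlL.avR S hK hKH (upK K hKH ψ hψ) (nn ψ hψ0) v
      (show 0 < ε / c by positivity)] with n hn
    have hX : ε / c * (1 + ∫ z in K, f n z ^ 4) ≤ ε * (1 + ∫ z in K, f n z ^ 4 / z.im ^ 2) := by
      calc ε / c * (1 + ∫ z in K, f n z ^ 4) ≤
            ε / c * (c * (1 + ∫ z in K, f n z ^ 4 / z.im ^ 2)) :=
            mul_le_mul_of_nonneg_left (hcK n) (by positivity)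
        _ = _ := by field_simp
    simp only [eC, e1]
    rw [eII]
    exact hn.trans hX
  · have key := Pool.Agent.Helper27K9.FP.AlL.tfae4 S
    have p1 : (∀ ψ, TF HH ψ → Tendsto (fun n => II ψ (fun z => f n z ^ 4)) atTop
        (𝓝 (3 * II ψ (fun _ => 1)))) ↔ FinL.M4 f := by
      constructor
      · intro H φ hφ
        have := H _ (dn φ hφ)
        simp only [eII, yy φ hφ, mul_one] at this
        exact this
      · intro H ψ hψ
        simp only [eII, mul_one]
        exact H _ (up ψ hψ)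
    have p2 : (∀ ψ, TF HH ψ → ∀ R : ℝ, 0 < R → ∀ ε : ℝ, 0 < ε → ∀ᶠ n in atTop,
        ∀ v : Fin 4 → ℂ, (∀ i, ‖v i‖ ≤ R) →
          |C ψ (1 / 4 + t n ^ 2) (f n) v - gauss v * II ψ (fun _ => 1)| ≤ ε) ↔
        Pool.Agent.Helper27K9.FP.AlL.U4 (fun n => 1 / 4 + t n ^ 2) f := by
      constructor
      · intro H φ hφ R hR ε hε
        have := H _ (dn φ hφ) R hR ε hε
        simp only [eC, e1, yy φ hφ] at this
        exact this
      · intro H ψ hψ R hR ε hε
        simp only [eC, e1]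
        exact H _ (up ψ hψ) R hR ε hε
    have e22 : ∀ ψ n (w : ℂ), II ψ (fun z =>
          f n z ^ 2 * f n (z + ((z.im / √(1 / 4 + t n ^ 2) : ℝ) : ℂ) * w) ^ 2) =
        Pool.Agent.Helper27K9.FP.C4
          (fun z => ψ z / z.im ^ 2) (hh (fun n => 1 / 4 + t n ^ 2) n) (f n) ![0, 0, w, w] := by
      intro ψ n w
      rw [eII]
      unfold Pool.Agent.Helper27K9.FP.C4
      congr 1; funext z
      rw [eh]
      set c : ℂ := ((hh (fun n => 1 / 4 + t n ^ 2) n * z.im : ℝ) : ℂ) with hc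
      have e5 : ∏ i : Fin 4, f n (z + c * (![0, 0, w, w] : Fin 4 → ℂ) i) =
          f n (z + c * 0) * f n (z + c * 0) * f n (z + c * w) * f n (z + c * w) :=
        Fin.prod_univ_four _
      rw [e5, mul_zero, add_zero]
      ring
    have p3 : ∀ w : ℂ, (∀ ψ, TF HH ψ → Tendsto (fun n => II ψ (fun z =>
          f n z ^ 2 * f n (z + ((z.im / √(1 / 4 + t n ^ 2) : ℝ) : ℂ) * w) ^ 2)) atTop
          (𝓝 ((1 + 2 * J0 ‖w‖ ^ 2) * II ψ (fun _ => 1)))) ↔
        Pool.Agent.Helper27K9.FP.AlL.P2 (fun n => 1 / 4 + t n ^ 2) f w := by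
      intro w
      constructor
      · intro H φ hφ
        have := H _ (dn φ hφ)
        simp only [e22, e1, yy φ hφ] at this
        exact this
      · intro H ψ hψ
        simp only [e22, e1]
        exact H _ (up ψ hψ)
    have p4 : ∀ v : Fin 4 → ℂ, (∀ ψ, TF HH ψ → Tendsto (fun n =>
          1 / (2 * Real.pi) * ∫ β in (0 : ℝ)..(2 * Real.pi),
            C ψ (1 / 4 + t n ^ 2) (f n) (rot β v)) atTop
          (𝓝 (gauss v * II ψ (fun _ => 1)))) ↔
        Pool.Agent.Helper27K9.FP.AlL.R4 (fun n => 1 / 4 + t n ^ 2) f v := by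
      intro v
      constructor
      · intro H φ hφ
        have := H _ (dn φ hφ)
        simp only [eC, e1, yy φ hφ] at this
        exact this
      · intro H ψ hψ
        simp only [eC, e1]
        exact H _ (up ψ hψ)
    rw [p1, p2]
    simp only [p3, p4]
    exact key

end Pool.Agent.Results.MP_a54f13_nt.FourPointFunctions
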