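import Pool.Agent.Helper93K9.PE.All
import Pool.Agent.Helper93K9.PE.Max

/-!
# The fourth moment of Hecke-Maass forms and the masses of all sets larger than the wavelength
(MP_a54f13_nt)

The plane is `ℂ`, with the upper half plane `HH` and `dμ = dx dy / y²`. `dx f z`, `dy f z` are the
derivatives `fderiv ℝ f z 1`, `fderiv ℝ f z I`; `TF U φ` says that `φ : ℂ → ℝ` is smooth
with compact support contained in `U`. `RO lam f = lam^{-1/2} y (∂x f - i ∂y f)` is the normalised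
frame derivative.

The hypothesis `hqe` is quantum unique ergodicity in its microlocal form:
`∫ φ f (RO^k f) dμ → ∫ φ dμ` for `k = 0`, and `→ 0` for `k ≥ 1`.

`Adm κ a b z E` says that `E` is an open set which contains `z`, is contained in a disc of radius
`r im c` about a point `c`, where `a ≤ r ≤ b`, and is star-shaped with respect to all points of the
concentric disc of radius `κ r im c`. For instance `E` can be any disc containing `z`, or any open convex
set which contains `z` and a disc of comparable size. `av E F` is the mean of `F` over `E`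
(for the Lebesgue measure; as `E` is small the mean for `μ` is the same up to a factor `1 + O(b)`), and
`MX κ a b F z` is the supremum of `|av E F - 1|` over all admissible sets: the maximal deviation of the
mass from its expected value, over all sets containing `z`, of all shapes and of all sizes between `a`
and `b`. It is a lower semicontinuous function of `z`. `MD a b F z` is the supremum over the discs with
centre `z` only.

The theorem: the case `n = 4` of the question holds for the given sequence of forms if and only if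
the mass is equidistributed simultaneously in all sets larger than the wavelength: for almost all
points, all the sets containing the point, of sizes between a large multiple of the wavelength and a
small constant, have asymptotically the right mass at the same time. The supremum over the sets is
inside the integral.

Proof idea. If `n = 4` holds then the local masses `M` at a scale `R` are near `1` in mean square
(hand-in PlanckScaleEquidistribution). The mass of a larger set `E` is compared with the mean of `M` over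
a dilate of `E` (Fubini; a set which is star-shaped with respect to a disc contains the neighbourhoods
of its contractions); and the means of `|M - 1|` over all these sets are bounded by the maximal
function of Hardy and Littlewood of `|M - 1|`.
-/

set_option autoImplicit false
open MeasureTheory Filter Topology Complex
open scoped ContDiff ENNReal

namespace Pool.Agent.Results.MP_a54f13_nt.MaximalEquidistribution

open Pool.Agent.Helper93K9.PE

/-- the derivative in the direction `1` -/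
noncomputable def dx {E : Type} [NormedAddCommGroup E] [NormedSpace ℝ E] (f : ℂ → E) (z : ℂ) : E :=
  fderiv ℝ f z 1

/-- the derivative in the direction `I` -/
noncomputable def dy {E : Type} [NormedAddCommGroup E] [NormedSpace ℝ E] (f : ℂ → E) (z : ℂ) : E :=
  fderiv ℝ f z I

/-- test functions: smooth with compact support contained in `U` -/
def TF (U : Set ℂ) (φ : ℂ → ℝ) : Prop := ContDiff ℝ ∞ φ ∧ HasCompactSupport φ ∧ tsupport φ ⊆ U

/-- the open upper half plane -/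
def HH : Set ℂ := {z | 0 < z.im}

/-- the operator `f ↦ lam^{-1/2} y (∂x f - i ∂y f)` -/
noncomputable def RO (lam : ℝ) (f : ℂ → ℂ) (z : ℂ) : ℂ :=
  ((z.im / √lam : ℝ) : ℂ) * (dx f z - I * dy f z)

/-- the integral `∫ ψ F dμ` -/
noncomputable def II (ψ F : ℂ → ℝ) : ℝ := ∫ z, ψ z * F z / z.im ^ 2

/-- the mean of `F` over `E` -/
noncomputable def av (E : Set ℂ) (F : ℂ → ℝ) : ℝ := (volume E).toReal⁻¹ * ∫ w in E, F w

/-- open sets containing `z`, contained in a disc with centre `c` and radius `r im c`, `a ≤ r ≤ b`, and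
star-shaped with respect to all points of the disc with centre `c` and radius `κ r im c` -/
def Adm (κ a b : ℝ) (z : ℂ) (E : Set ℂ) : Prop :=
  IsOpen E ∧ z ∈ E ∧ ∃ (c : ℂ) (r : ℝ), a ≤ r ∧ r ≤ b ∧ E ⊆ Metric.ball c (r * c.im) ∧
    ∀ v ∈ Metric.ball c (κ * (r * c.im)), ∀ u ∈ E, segment ℝ v u ⊆ E

/-- the maximal deviation of the means of `F` from `1`, over all admissible sets -/
noncomputable def MX (κ a b : ℝ) (F : ℂ → ℝ) (z : ℂ) : ℝ≥0∞ :=
  ⨆ (E : Set ℂ) (_ : Adm κ a b z E), ENNReal.ofReal |av E F - 1|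

/-- the maximal deviation over the discs with centre `z` and radius `r im z`, `a ≤ r ≤ b` -/
noncomputable def MD (a b : ℝ) (F : ℂ → ℝ) (z : ℂ) : ℝ≥0∞ :=
  ⨆ (r : ℝ) (_ : a ≤ r ∧ r ≤ b), ENNReal.ofReal |av (Metric.ball z (r * z.im)) F - 1|

/-- the integral `∫ ψ G² dμ` -/
noncomputable def NN (ψ : ℂ → ℝ) (G : ℂ → ℝ≥0∞) : ℝ≥0∞ :=
  ∫⁻ z, ENNReal.ofReal (ψ z / z.im ^ 2) * G z ^ 2

/-- **Result.** Let `f n` be real solutions of `-y²(∂x² + ∂y²) f = λ_n f`, `λ_n = 1/4 + t_n²`, on the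
upper half plane, `t_n → ∞`, satisfying microlocal quantum unique ergodicity.

(A) Equivalent are:
(1) `∫ ψ f_n⁴ dμ → 3 ∫ ψ dμ` for all `ψ`;
(2) for all `0 < κ ≤ 1`, `ψ ≥ 0` and `ε > 0` there are `R₀, r₀ > 0` such that for all large `n`
`∫ ψ (sup_E |av E f_n² - 1|)² dμ ≤ ε`, where `E` runs over all open sets containing the point, of sizes
between `R₀/√λ_n` and `r₀`, which are star-shaped with respect to a disc of comparable size;
(3) for all `ψ ≥ 0` and `ε > 0` there are `R₀, r₀ > 0` such that for all large `n` the same holds for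
the discs centred at the point.

(B) If (1) holds then for all `κ`, all compact sets `K` and all `ε > 0` there are `R₀, r₀ > 0` such that
for all large `n` the points `z` of `K` for which some such set `E` containing `z` has
`|av E f_n² - 1| > ε` form a set of measure at most `ε`. -/
theorem result (t : ℕ → ℝ) (ht : Tendsto t atTop atTop) (f : ℕ → ℂ → ℝ)
    (hf : ∀ n, ContDiffOn ℝ ∞ (f n) HH)
    (heq : ∀ n, ∀ z ∈ HH,
      -(z.im ^ 2 * (dx (dx (f n)) z + dy (dy (f n)) z)) = (1 / 4 + t n ^ 2) * f n z)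
    (hqe : ∀ φ, TF HH φ → ∀ k : ℕ, Tendsto (fun n => ∫ z, ((φ z / z.im ^ 2 : ℝ) : ℂ) *
      ((f n z : ℂ) * (RO (1 / 4 + t n ^ 2))^[k] (fun w => (f n w : ℂ)) z)) atTop
      (𝓝 (if k = 0 then ((∫ z, φ z / z.im ^ 2 : ℝ) : ℂ) else 0))) :
    List.TFAE [
      ∀ ψ, TF HH ψ → Tendsto (fun n => II ψ (fun z => f n z ^ 4)) atTop (𝓝 (3 * II ψ (fun _ => 1))),
      ∀ κ : ℝ, 0 < κ → κ ≤ 1 → ∀ ψ, TF HH ψ → (∀ z, 0 ≤ ψ z) → ∀ ε : ℝ, 0 < ε →
        ∃ R₀ r₀ : ℝ, 0 < R₀ ∧ 0 < r₀ ∧ ∀ᶠ n in atTop,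
          NN ψ (MX κ (R₀ / √(1 / 4 + t n ^ 2)) r₀ (fun w => f n w ^ 2)) ≤ ENNReal.ofReal ε,
      ∀ ψ, TF HH ψ → (∀ z, 0 ≤ ψ z) → ∀ ε : ℝ, 0 < ε →
        ∃ R₀ r₀ : ℝ, 0 < R₀ ∧ 0 < r₀ ∧ ∀ᶠ n in atTop,
          NN ψ (MD (R₀ / √(1 / 4 + t n ^ 2)) r₀ (fun w => f n w ^ 2)) ≤ ENNReal.ofReal ε] ∧
    ((∀ ψ, TF HH ψ → Tendsto (fun n => II ψ (fun z => f n z ^ 4)) atTop
        (𝓝 (3 * II ψ (fun _ => 1)))) →
      ∀ κ : ℝ, 0 < κ → κ ≤ 1 → ∀ K : Set ℂ, IsCompact K → K ⊆ HH → ∀ ε : ℝ, 0 < ε →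
        ∃ R₀ r₀ : ℝ, 0 < R₀ ∧ 0 < r₀ ∧ ∀ᶠ n in atTop,
          volume {z | z ∈ K ∧ ∃ E, Adm κ (R₀ / √(1 / 4 + t n ^ 2)) r₀ z E ∧
            ε < |av E (fun w => f n w ^ 2) - 1|} ≤ ENNReal.ofReal ε) := by
  have hpos : ∀ n, 0 < 1 / 4 + t n ^ 2 := fun n => by positivity
  have hlam : Tendsto (fun n => 1 / 4 + t n ^ 2) atTop atTop :=
    tendsto_atTop_add_const_left _ _ ((tendsto_pow_atTop two_ne_zero).comp ht)
  have S : Seq (fun n => 1 / 4 + t n ^ 2) f := by
    refine ⟨hpos, hlam, hf, fun n z hz => ?_, hqe⟩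
    have h1 := heq n z hz
    have h2 : Pool.Agent.W745.RW.lap (f n) z = dx (dx (f n)) z + dy (dy (f n)) z := rfl
    rw [h2]; linarith
  -- the integrals
  have eII : ∀ (ψ F : ℂ → ℝ), II ψ F = ∫ z, ψ z / z.im ^ 2 * F z := by
    intro ψ F
    unfold II
    congr 1; funext z; ring
  -- transfer between `ψ` and `ψ / y²`
  have up : ∀ ψ, TF HH ψ → TF HH (fun z => ψ z / z.im ^ 2) := fun ψ hψ => FinL.tfy hψ
  have dn : ∀ ψ, TF HH ψ → TF HH (fun z => ψ z * z.im ^ 2) := fun ψ hψ => FinL.tfy' hψ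
  have yy : ∀ ψ, TF HH ψ → ∀ z, ψ z * z.im ^ 2 / z.im ^ 2 = ψ z := fun ψ hψ z => FinL.yy hψ z
  have nn : ∀ ψ : ℂ → ℝ, (∀ z, 0 ≤ ψ z) → ∀ z : ℂ, 0 ≤ ψ z / z.im ^ 2 := fun ψ h z =>
    div_nonneg (h z) (sq_nonneg _)
  have nn' : ∀ ψ : ℂ → ℝ, (∀ z, 0 ≤ ψ z) → ∀ z : ℂ, 0 ≤ ψ z * z.im ^ 2 := fun ψ h z =>
    mul_nonneg (h z) (sq_nonneg _)
  have p1 : (∀ ψ, TF HH ψ → Tendsto (fun n => II ψ (fun z => f n z ^ 4)) atTop
      (𝓝 (3 * II ψ (fun _ => 1)))) ↔ FinL.M4 f := by
    constructor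
    · intro H φ hφ
      have := H _ (dn φ hφ)
      simp only [eII, yy φ hφ, mul_one] at this
      exact this
    · intro H ψ hψ
      simp only [eII, mul_one]
      exact H _ (up ψ hψ)
  have p2 : ∀ κ : ℝ, (∀ ψ, TF HH ψ → (∀ z, 0 ≤ ψ z) → ∀ ε : ℝ, 0 < ε →
        ∃ R₀ r₀ : ℝ, 0 < R₀ ∧ 0 < r₀ ∧ ∀ᶠ n in atTop,
          NN ψ (MX κ (R₀ / √(1 / 4 + t n ^ 2)) r₀ (fun w => f n w ^ 2)) ≤ ENNReal.ofReal ε) ↔
      MaxL.MM (fun n => 1 / 4 + t n ^ 2) f κ := by
    intro κ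
    constructor
    · intro H φ hφ hφ0 ε hε
      have := H _ (dn φ hφ) (nn' φ hφ0) ε hε
      simp only [NN, yy φ hφ] at this
      exact this
    · intro H ψ hψ hψ0 ε hε
      exact H _ (up ψ hψ) (nn ψ hψ0) ε hε
  have eMD : ∀ (a b : ℝ), 0 < a → ∀ F : ℂ → ℝ, ∀ z ∈ HH, MD a b F z = MaxL.MD a b F z := by
    intro a b ha F z hz
    have hy : 0 < z.im := hz
    unfold MD MaxL.MD
    refine iSup_congr fun r => iSup_congr fun hr => ?_
    have hr0 : 0 < r := ha.trans_le hr.1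
    have hρ : 0 < r * z.im := by positivity
    unfold av mn
    rw [SwlL.vol_ball z hρ.le, ENNReal.toReal_ofReal (by positivity), one_div]
  have eNN : ∀ ψ, TF HH ψ → ∀ (a b : ℝ), 0 < a → ∀ F : ℂ → ℝ, NN ψ (MD a b F) =
      ∫⁻ z, ENNReal.ofReal (ψ z / z.im ^ 2) * MaxL.MD a b F z ^ 2 := by
    intro ψ hψ a b ha F
    unfold NN
    refine lintegral_congr fun z => ?_
    by_cases hz : z ∈ HH
    · rw [eMD a b ha F z hz]
    · rw [Pool.Agent.TH294.RS.TF.zero hψ hz]; simp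
  have p3 : (∀ ψ, TF HH ψ → (∀ z, 0 ≤ ψ z) → ∀ ε : ℝ, 0 < ε →
        ∃ R₀ r₀ : ℝ, 0 < R₀ ∧ 0 < r₀ ∧ ∀ᶠ n in atTop,
          NN ψ (MD (R₀ / √(1 / 4 + t n ^ 2)) r₀ (fun w => f n w ^ 2)) ≤ ENNReal.ofReal ε) ↔
      MaxL.MMD (fun n => 1 / 4 + t n ^ 2) f := by
    constructor
    · intro H φ hφ hφ0 ε hε
      obtain ⟨R₀, r₀, hR, hr, h1⟩ := H _ (dn φ hφ) (nn' φ hφ0) ε hε
      refine ⟨R₀, r₀, hR, hr, h1.mono fun n hn => ?_⟩
      rw [eNN _ (dn φ hφ) _ _ (div_pos hR (Real.sqrt_pos.2 (hpos n)))] at hn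
      simp only [yy φ hφ] at hn
      exact hn
    · intro H ψ hψ hψ0 ε hε
      obtain ⟨R₀, r₀, hR, hr, h1⟩ := H _ (up ψ hψ) (nn ψ hψ0) ε hε
      refine ⟨R₀, r₀, hR, hr, h1.mono fun n hn => ?_⟩
      rw [eNN _ hψ _ _ (div_pos hR (Real.sqrt_pos.2 (hpos n)))]
      exact hn
  have q14 : FinL.M4 f ↔ FinL.MP (fun n => 1 / 4 + t n ^ 2) f :=
    (FinL.tfae idd gr ell fm sand S).out 0 3
  have h12 : FinL.M4 f → ∀ κ : ℝ, 0 < κ → κ ≤ 1 → MaxL.MM (fun n => 1 / 4 + t n ^ 2) f κ :=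
    fun H κ hκ hκ1 => MaxL.MP_MM hl S (q14.1 H) hκ hκ1
  refine ⟨?_, ?_⟩
  · rw [p1, p3]
    tfae_have 1 → 2 := fun H κ hκ hκ1 => (p2 κ).2 (h12 H κ hκ hκ1)
    tfae_have 2 → 3 := fun H => MaxL.MM_MMD S (le_refl (1 : ℝ)) ((p2 1).1 (H 1 one_pos le_rfl))
    tfae_have 3 → 1 := fun H => q14.2 (MaxL.MMD_MP S H)
    tfae_finish
  · intro H κ hκ hκ1 K hK hKH ε hε
    exact MaxL.MM_meas (h12 (p1.1 H) κ hκ hκ1) K hK hKH hε

end Pool.Agent.Results.MP_a54f13_nt.MaximalEquidistribution
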