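import Pool.Agent.Helper93K9.PE.All

/-!
# The fourth moment of Hecke-Maass forms and the mass in discs of the size of the wavelength
(MP_a54f13_nt)

The plane is `ℂ`, with the upper half plane `HH` and `dμ = dx dy / y²`. `dx f z`, `dy f z` are the
derivatives `fderiv ℝ f z 1`, `fderiv ℝ f z I`; `TF U φ` says that `φ : ℂ → ℝ` is smooth
with compact support contained in `U`. `RO lam f = lam^{-1/2} y (∂x f - i ∂y f)` is the normalised
frame derivative.

The hypothesis `hqe` is quantum unique ergodicity in its microlocal form: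
`∫ φ f (RO^k f) dμ → ∫ φ dμ` for `k = 0`, and `→ 0` for `k ≥ 1`.

`mean r F z` is the mean of `F` over the disc with centre `z` and radius `r y`, `y = im z`. The
function `mean (R / √λ) f²` is the local mass of `f` at the scale of `R` wavelengths (up to the
factor `2π`), that is at the Planck scale. For the Gaussian random wave the mean square of the local
mass is `gauss R`, which tends to `1` as `R → ∞`.

The theorem: the case `n = 4` of the question (equivalently, the cases `n ≤ 4`) holds for the given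
sequence of forms if and only if the local mass at the Planck scale has the mean square of the random
wave model, for one scale `R` or for all, if and only if the local masses at the Planck scale tend to
`1` in mean square as `R → ∞` (after `n → ∞`), if and only if the masses of all discs of radii between a
large multiple of the wavelength and a small constant are asymptotically uniform in mean square.

Proof idea. The mean of `f²` over a disc of radius `R y / √λ` is expanded with Taylor's formula; the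
average over the directions gives polynomials in the Laplacian applied to `f²`, up to terms which are
smaller by a factor `λ^{-1/2}` and up to a remainder which is bounded in `L²` by fourth moments of the
scaled derivatives of `f`. All these are at most the fourth moment of `f`, by the theorem on the excess
of the fourth moment on hyperbolic surfaces (starting file HyperbolicExcess of MP_a52643_an). The
correlations of polynomials in the Laplacian applied to `f²` are known up to the excess of the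
fourth moment of `f` (starting file SharpPowerSpectrum). Local elliptic estimates bound the fourth
moment by the mean square of the local mass at any fixed scale `R`.
-/

set_option autoImplicit false
open MeasureTheory Filter Topology Complex
open scoped ContDiff

namespace Pool.Agent.Results.MP_a54f13_nt.PlanckScaleEquidistribution

open Pool.Agent.Helper93K9.PE

/-- the derivative in the direction `1` -/
noncomputable def dx {E : Type} [NormedAddCommGroup E] [NormedSpace ℝ E] (f : ℂ → E) (z : ℂ) : E :=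
  fderiv ℝ f z 1

/-- the derivative in the direction `I` -/
noncomputable def dy {E : Type} [NormedAddCommGroup E] [NormedSpace ℝ E] (f : ℂ → E) (z : ℂ) : E :=
  fderiv ℝ f z I

/-- test functions: smooth with compact support contained in `U` -/
def TF (U : Set ℂ) (φ : ℂ → ℝ) : Prop := ContDiff ℝ ∞ φ ∧ HasCompactSupport φ ∧ tsupport φ ⊆ U

/-- the open upper half plane -/
def HH : Set ℂ := {z | 0 < z.im}

/-- the operator `f ↦ lam^{-1/2} y (∂x f - i ∂y f)` -/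
noncomputable def RO (lam : ℝ) (f : ℂ → ℂ) (z : ℂ) : ℂ :=
  ((z.im / √lam : ℝ) : ℂ) * (dx f z - I * dy f z)

/-- the integral `∫ ψ F dμ` -/
noncomputable def II (ψ F : ℂ → ℝ) : ℝ := ∫ z, ψ z * F z / z.im ^ 2

/-- the mean of `F` (with values in `ℝ` or `ℂ`) over the disc with centre `z` and radius `r * im z` -/
noncomputable def mean {E : Type} [NormedAddCommGroup E] [NormedSpace ℝ E] (r : ℝ) (F : ℂ → E)
    (z : ℂ) : E := (1 / (Real.pi * (r * z.im) ^ 2)) • ∫ w in Metric.ball z (r * z.im), F w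

/-- the mean of `cos (y Re w)` over the unit disc, `2 J₁(y) / y` -/
noncomputable def J (y : ℝ) : ℝ :=
  1 / Real.pi * ∫ w in Metric.ball (0 : ℂ) 1, Real.cos (y * w.re)

/-- the mean square of the mass of a disc of radius `R` for the random wave of frequency `1` -/
noncomputable def gauss (R : ℝ) : ℝ :=
  1 + 1 / Real.pi * ∫ θ in (0 : ℝ)..(2 * Real.pi), J (R * √(2 - 2 * Real.cos θ)) ^ 2

/-- the moments of the standard Gaussian law -/
noncomputable def gm (k : ℕ) : ℝ := if Even k then ((Nat.doubleFactorial (k - 1) : ℕ) : ℝ) else 0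

/-- **Result.** Let `f n` be real solutions of `-y²(∂x² + ∂y²) f = λ_n f`, `λ_n = 1/4 + t_n²`, on the
upper half plane, `t_n → ∞`, satisfying microlocal quantum unique ergodicity.

(A) If the fourth moments of the `f n` are bounded on compact sets then for all `R > 0` and all test
functions `ψ`, up to an error `o(1)`, `∫ ψ (mean (R/√λ_n) f_n²)² dμ` is `gauss R ∫ ψ dμ` plus
`(2 + J(2R)²) / 3` times `∫ ψ f_n⁴ dμ - 3 ∫ ψ dμ`; and `gauss R → 1` as `R → ∞`.

(B) Equivalent are: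
(1) `∫ ψ f_n⁴ dμ → 3 ∫ ψ dμ` for all `ψ`;
(2) for `1 ≤ k ≤ 4` and all `ψ`, `∫ ψ f_n^k dμ` converges to the Gaussian value;
(3) for every `R > 0` and all `ψ`, `∫ ψ (mean (R/√λ_n) f_n²)² dμ → gauss R ∫ ψ dμ`;
(4) the same for one `R > 0`;
(5) for all `ψ ≥ 0` and `ε > 0` there is an `R > 0` with
`∫ ψ (mean (R/√λ_n) f_n² - 1)² dμ ≤ ε` for all large `n`;
(6) for all `ψ ≥ 0` and `ε > 0` there are `R₀, r₀ > 0` such that for all large `n` and all `r` between
`R₀/√λ_n` and `r₀`, `∫ ψ (mean r f_n² - 1)² dμ ≤ ε`;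
(7) for all `ψ ≥ 0`, `k ≥ 0` and `ε > 0` there is an `R > 0` such that
`∫ ψ |mean (R/√λ_n) (f_n RO^k f_n) - δ|² dμ ≤ ε` for all large `n`, `δ = 1` for `k = 0`, `δ = 0` for
`k > 0`. -/
theorem result (t : ℕ → ℝ) (ht : Tendsto t atTop atTop) (f : ℕ → ℂ → ℝ)
    (hf : ∀ n, ContDiffOn ℝ ∞ (f n) HH)
    (heq : ∀ n, ∀ z ∈ HH,
      -(z.im ^ 2 * (dx (dx (f n)) z + dy (dy (f n)) z)) = (1 / 4 + t n ^ 2) * f n z)
    (hqe : ∀ φ, TF HH φ → ∀ k : ℕ, Tendsto (fun n => ∫ z, ((φ z / z.im ^ 2 : ℝ) : ℂ) *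
      ((f n z : ℂ) * (RO (1 / 4 + t n ^ 2))^[k] (fun w => (f n w : ℂ)) z)) atTop
      (𝓝 (if k = 0 then ((∫ z, φ z / z.im ^ 2 : ℝ) : ℂ) else 0))) :
    (((∀ K : Set ℂ, IsCompact K → K ⊆ HH → ∃ C : ℝ, ∀ᶠ n in atTop, ∫ z in K, f n z ^ 4 ≤ C) →
      ∀ R : ℝ, 0 < R → ∀ ψ, TF HH ψ → Tendsto (fun n =>
        II ψ (fun z => mean (R / √(1 / 4 + t n ^ 2)) (fun w => f n w ^ 2) z ^ 2) -
          (2 + J (2 * R) ^ 2) / 3 * (II ψ (fun z => f n z ^ 4) - 3 * II ψ (fun _ => 1))) atTop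
        (𝓝 (gauss R * II ψ (fun _ => 1)))) ∧ Tendsto gauss atTop (𝓝 1)) ∧
    List.TFAE [
      ∀ ψ, TF HH ψ → Tendsto (fun n => II ψ (fun z => f n z ^ 4)) atTop (𝓝 (3 * II ψ (fun _ => 1))),
      ∀ k : ℕ, 1 ≤ k → k ≤ 4 → ∀ ψ, TF HH ψ → Tendsto (fun n => II ψ (fun z => f n z ^ k)) atTop
        (𝓝 (gm k * II ψ (fun _ => 1))),
      ∀ R : ℝ, 0 < R → ∀ ψ, TF HH ψ → Tendsto (fun n =>
        II ψ (fun z => mean (R / √(1 / 4 + t n ^ 2)) (fun w => f n w ^ 2) z ^ 2)) atTop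
        (𝓝 (gauss R * II ψ (fun _ => 1))),
      ∃ R : ℝ, 0 < R ∧ ∀ ψ, TF HH ψ → Tendsto (fun n =>
        II ψ (fun z => mean (R / √(1 / 4 + t n ^ 2)) (fun w => f n w ^ 2) z ^ 2)) atTop
        (𝓝 (gauss R * II ψ (fun _ => 1))),
      ∀ ψ, TF HH ψ → (∀ z, 0 ≤ ψ z) → ∀ ε : ℝ, 0 < ε → ∃ R : ℝ, 0 < R ∧ ∀ᶠ n in atTop,
        II ψ (fun z => (mean (R / √(1 / 4 + t n ^ 2)) (fun w => f n w ^ 2) z - 1) ^ 2) ≤ ε,
      ∀ ψ, TF HH ψ → (∀ z, 0 ≤ ψ z) → ∀ ε : ℝ, 0 < ε → ∃ R₀ r₀ : ℝ, 0 < R₀ ∧ 0 < r₀ ∧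
        ∀ᶠ n in atTop, ∀ r : ℝ, R₀ / √(1 / 4 + t n ^ 2) ≤ r → r ≤ r₀ →
          II ψ (fun z => (mean r (fun w => f n w ^ 2) z - 1) ^ 2) ≤ ε,
      ∀ ψ, TF HH ψ → (∀ z, 0 ≤ ψ z) → ∀ k : ℕ, ∀ ε : ℝ, 0 < ε → ∃ R : ℝ, 0 < R ∧ ∀ᶠ n in atTop,
        II ψ (fun z => ‖mean (R / √(1 / 4 + t n ^ 2)) (fun w => (f n w : ℂ) *
          (RO (1 / 4 + t n ^ 2))^[k] (fun w => (f n w : ℂ)) w) z - (if k = 0 then 1 else 0)‖ ^ 2) ≤
          ε] := by
  have hpos : ∀ n, 0 < 1 / 4 + t n ^ 2 := fun n => by positivity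
  have hlam : Tendsto (fun n => 1 / 4 + t n ^ 2) atTop atTop :=
    tendsto_atTop_add_const_left _ _ ((tendsto_pow_atTop two_ne_zero).comp ht)
  have S : Seq (fun n => 1 / 4 + t n ^ 2) f := by
    refine ⟨hpos, hlam, hf, fun n z hz => ?_, hqe⟩
    have h1 := heq n z hz
    have h2 : Pool.Agent.W745.RW.lap (f n) z = dx (dx (f n)) z + dy (dy (f n)) z := rfl
    rw [h2]; linarith
  have hJ : ∀ y, J y = jj y := J_eq
  have hg : ∀ R, gauss R = gR R := fun R => by simp only [gauss, gR, hJ]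
  -- the integrals
  have eII : ∀ (ψ F : ℂ → ℝ), II ψ F = ∫ z, ψ z / z.im ^ 2 * F z := by
    intro ψ F
    unfold II
    congr 1; funext z; ring
  have e1 : ∀ ψ, II ψ (fun _ => 1) = ∫ z, ψ z / z.im ^ 2 := by
    intro ψ
    rw [eII]; simp only [mul_one]
  have emn : ∀ (R : ℝ), 0 < R → ∀ ψ, TF HH ψ → ∀ n (g : ℝ → ℝ),
      II ψ (fun z => g (mean (R / √(1 / 4 + t n ^ 2)) (fun w => f n w ^ 2) z)) =
      ∫ z, ψ z / z.im ^ 2 * g (AR R (1 / 4 + t n ^ 2) (f n) z) := by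
    intro R hR ψ hψ n g
    rw [eII]
    congr 1; funext z
    by_cases hz : z ∈ HH
    · have := FinL.mn_AR S hR n hz
      have h2 : mean (R / √(1 / 4 + t n ^ 2)) (fun w => f n w ^ 2) z =
          AR R (1 / 4 + t n ^ 2) (f n) z := this
      rw [h2]
    · rw [Pool.Agent.TH294.RS.TF.zero hψ hz]; simp
  -- transfer between `ψ` and `ψ / y²`
  have up : ∀ ψ, TF HH ψ → TF HH (fun z => ψ z / z.im ^ 2) := fun ψ hψ => FinL.tfy hψ
  have dn : ∀ ψ, TF HH ψ → TF HH (fun z => ψ z * z.im ^ 2) := fun ψ hψ => FinL.tfy' hψ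
  have yy : ∀ ψ, TF HH ψ → ∀ z, ψ z * z.im ^ 2 / z.im ^ 2 = ψ z := fun ψ hψ z => FinL.yy hψ z
  have p1 : (∀ ψ, TF HH ψ → Tendsto (fun n => II ψ (fun z => f n z ^ 4)) atTop
      (𝓝 (3 * II ψ (fun _ => 1)))) ↔ FinL.M4 f := by
    constructor
    · intro H φ hφ
      have := H _ (dn φ hφ)
      simp only [eII, yy φ hφ, mul_one] at this
      exact this
    · intro H ψ hψ
      simp only [eII, mul_one]
      exact H _ (up ψ hψ)
  have p2 : (∀ k : ℕ, 1 ≤ k → k ≤ 4 → ∀ ψ, TF HH ψ → Tendsto (fun n => II ψ (fun z => f n z ^ k))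
      atTop (𝓝 (gm k * II ψ (fun _ => 1)))) ↔ FinL.ML f := by
    constructor
    · intro H k h1 h4 φ hφ
      have := H k h1 h4 _ (dn φ hφ)
      simp only [eII, yy φ hφ, mul_one] at this
      exact this
    · intro H k h1 h4 ψ hψ
      simp only [eII, mul_one]
      exact H k h1 h4 _ (up ψ hψ)
  have p3 : ∀ R : ℝ, 0 < R → ((∀ ψ, TF HH ψ → Tendsto (fun n =>
        II ψ (fun z => mean (R / √(1 / 4 + t n ^ 2)) (fun w => f n w ^ 2) z ^ 2)) atTop
        (𝓝 (gauss R * II ψ (fun _ => 1)))) ↔ FinL.MR (fun n => 1 / 4 + t n ^ 2) f R) := by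
    intro R hR
    constructor
    · intro H φ hφ
      have := H _ (dn φ hφ)
      simp only [emn R hR _ (dn φ hφ) _ (fun x => x ^ 2), e1, yy φ hφ, hg] at this
      exact this
    · intro H ψ hψ
      simp only [emn R hR _ hψ _ (fun x => x ^ 2), e1, hg]
      exact H _ (up ψ hψ)
  have nn : ∀ ψ : ℂ → ℝ, (∀ z, 0 ≤ ψ z) → ∀ z : ℂ, 0 ≤ ψ z / z.im ^ 2 := fun ψ h z =>
    div_nonneg (h z) (sq_nonneg _)
  have nn' : ∀ ψ : ℂ → ℝ, (∀ z, 0 ≤ ψ z) → ∀ z : ℂ, 0 ≤ ψ z * z.im ^ 2 := fun ψ h z =>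
    mul_nonneg (h z) (sq_nonneg _)
  have p5 : (∀ ψ, TF HH ψ → (∀ z, 0 ≤ ψ z) → ∀ ε : ℝ, 0 < ε → ∃ R : ℝ, 0 < R ∧ ∀ᶠ n in atTop,
        II ψ (fun z => (mean (R / √(1 / 4 + t n ^ 2)) (fun w => f n w ^ 2) z - 1) ^ 2) ≤ ε) ↔
      FinL.MP (fun n => 1 / 4 + t n ^ 2) f := by
    constructor
    · intro H φ hφ hφ0 ε hε
      obtain ⟨R, hR, h1⟩ := H _ (dn φ hφ) (nn' φ hφ0) ε hε
      refine ⟨R, hR, h1.mono fun n hn => ?_⟩
      rw [emn R hR _ (dn φ hφ) n (fun x => (x - 1) ^ 2)] at hn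
      simp only [yy φ hφ] at hn
      exact hn
    · intro H ψ hψ hψ0 ε hε
      obtain ⟨R, hR, h1⟩ := H _ (up ψ hψ) (nn ψ hψ0) ε hε
      refine ⟨R, hR, h1.mono fun n hn => ?_⟩
      rw [emn R hR _ hψ n (fun x => (x - 1) ^ 2)]
      exact hn
  have p6 : (∀ ψ, TF HH ψ → (∀ z, 0 ≤ ψ z) → ∀ ε : ℝ, 0 < ε → ∃ R₀ r₀ : ℝ, 0 < R₀ ∧ 0 < r₀ ∧
        ∀ᶠ n in atTop, ∀ r : ℝ, R₀ / √(1 / 4 + t n ^ 2) ≤ r → r ≤ r₀ →
          II ψ (fun z => (mean r (fun w => f n w ^ 2) z - 1) ^ 2) ≤ ε) ↔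
      FinL.MA (fun n => 1 / 4 + t n ^ 2) f := by
    have em : ∀ ψ n r, II ψ (fun z => (mean r (fun w => f n w ^ 2) z - 1) ^ 2) =
        ∫ z, ψ z / z.im ^ 2 * (mn (r * z.im) (fun w => f n w ^ 2) z - 1) ^ 2 := by
      intro ψ n r
      rw [eII]; rfl
    constructor
    · intro H φ hφ hφ0 ε hε
      obtain ⟨R₀, r₀, hR, hr, h1⟩ := H _ (dn φ hφ) (nn' φ hφ0) ε hε
      refine ⟨R₀, r₀, hR, hr, h1.mono fun n hn r hr1 hr2 => ?_⟩
      have := hn r hr1 hr2
      rw [em] at this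
      simp only [yy φ hφ] at this
      exact this
    · intro H ψ hψ hψ0 ε hε
      obtain ⟨R₀, r₀, hR, hr, h1⟩ := H _ (up ψ hψ) (nn ψ hψ0) ε hε
      refine ⟨R₀, r₀, hR, hr, h1.mono fun n hn r hr1 hr2 => ?_⟩
      rw [em]
      exact hn r hr1 hr2
  have p7 : (∀ ψ, TF HH ψ → (∀ z, 0 ≤ ψ z) → ∀ k : ℕ, ∀ ε : ℝ, 0 < ε → ∃ R : ℝ, 0 < R ∧
        ∀ᶠ n in atTop, II ψ (fun z => ‖mean (R / √(1 / 4 + t n ^ 2)) (fun w => (f n w : ℂ) *
          (RO (1 / 4 + t n ^ 2))^[k] (fun w => (f n w : ℂ)) w) z - (if k = 0 then 1 else 0)‖ ^ 2) ≤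
          ε) ↔ FinL.MK' (fun n => 1 / 4 + t n ^ 2) f := by
    have em : ∀ ψ, TF HH ψ → ∀ n k (R : ℝ), 0 < R → II ψ (fun z => ‖mean (R / √(1 / 4 + t n ^ 2))
        (fun w => (f n w : ℂ) * (RO (1 / 4 + t n ^ 2))^[k] (fun w => (f n w : ℂ)) w) z -
          (if k = 0 then 1 else 0)‖ ^ 2) =
        ∫ z, ψ z / z.im ^ 2 * ‖FinL.AC R (1 / 4 + t n ^ 2) (fun w => (f n w : ℂ) *
          (Pool.Agent.Y265.HY.FD (1 / 4 + t n ^ 2))^[k] (fun w => (f n w : ℂ)) w) z -
          (if k = 0 then 1 else 0)‖ ^ 2 := by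
      intro ψ hψ n k R hR
      rw [eII]
      congr 1; funext z
      by_cases hz : z ∈ HH
      · have h1 : 0 < R / √(1 / 4 + t n ^ 2) * z.im :=
          mul_pos (div_pos hR (Real.sqrt_pos.2 (hpos n))) hz
        have h2 := mean_E (fun w => (f n w : ℂ) *
          (RO (1 / 4 + t n ^ 2))^[k] (fun w => (f n w : ℂ)) w) z h1
        unfold mean
        rw [h2]
        rfl
      · rw [Pool.Agent.TH294.RS.TF.zero hψ hz]; simp
    constructor
    · intro H φ hφ hφ0 k ε hε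
      obtain ⟨R, hR, h1⟩ := H _ (dn φ hφ) (nn' φ hφ0) k ε hε
      refine ⟨R, hR, h1.mono fun n hn => ?_⟩
      rw [em _ (dn φ hφ) n k R hR] at hn
      simp only [yy φ hφ] at hn
      exact hn
    · intro H ψ hψ hψ0 k ε hε
      obtain ⟨R, hR, h1⟩ := H _ (up ψ hψ) (nn ψ hψ0) k ε hε
      refine ⟨R, hR, h1.mono fun n hn => ?_⟩
      rw [em _ hψ n k R hR]
      exact hn
  refine ⟨⟨fun hK R hR ψ hψ => ?_, ?_⟩, ?_⟩
  · have key := FinL.idr idd S hK (up ψ hψ) hR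
    simp only [emn R hR _ hψ _ (fun x => x ^ 2), e1, hg, hJ]
    simp only [eII]
    exact key
  · have : gauss = gR := funext hg
    rw [this]; exact gr.1
  · have key := FinL.tfae7 idd gr ell fm sand mic' S
    rw [p1, p2, p5, p6, p7]
    have q3 : (∀ R : ℝ, 0 < R → ∀ ψ, TF HH ψ → Tendsto (fun n =>
        II ψ (fun z => mean (R / √(1 / 4 + t n ^ 2)) (fun w => f n w ^ 2) z ^ 2)) atTop
        (𝓝 (gauss R * II ψ (fun _ => 1)))) ↔
        (∀ R : ℝ, 0 < R → FinL.MR (fun n => 1 / 4 + t n ^ 2) f R) :=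
      forall_congr' fun R => forall_congr' fun hR => p3 R hR
    have q4 : (∃ R : ℝ, 0 < R ∧ ∀ ψ, TF HH ψ → Tendsto (fun n =>
        II ψ (fun z => mean (R / √(1 / 4 + t n ^ 2)) (fun w => f n w ^ 2) z ^ 2)) atTop
        (𝓝 (gauss R * II ψ (fun _ => 1)))) ↔
        (∃ R : ℝ, 0 < R ∧ FinL.MR (fun n => 1 / 4 + t n ^ 2) f R) :=
      exists_congr fun R => and_congr_right fun hR => p3 R hR
    rw [q3, q4]
    exact key

end Pool.Agent.Results.MP_a54f13_nt.PlanckScaleEquidistribution
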