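import Pool.Agent.Helper93K9.PE.All
import Pool.Agent.Helper93K9.PE.Var2

/-!
# The variance of the mass of Hecke-Maass forms in discs of the size of the wavelength
(MP_a54f13_nt)

The plane is `ℂ`, with the upper half plane `HH` and `dμ = dx dy / y²`. `dx f z`, `dy f z` are the
derivatives `fderiv ℝ f z 1`, `fderiv ℝ f z I`; `TF U φ` says that `φ : ℂ → ℝ` is smooth
with compact support contained in `U`. `RO lam f = lam^{-1/2} y (∂x f - i ∂y f)` is the normalised
frame derivative.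

The hypothesis `hqe` is quantum unique ergodicity in its microlocal form:
`∫ φ f (RO^k f) dμ → ∫ φ dμ` for `k = 0`, and `→ 0` for `k ≥ 1`. It holds for Hecke-Maass forms. There is
no hypothesis on the fourth moments.

`mean r F z` is the mean of `F` over the disc with centre `z` and radius `r y`, `y = im z`. So
`mean (R / √λ) f²` is the local mass of `f` at the scale of `R` wavelengths (up to the factor `2π`), that
is at the Planck scale; its mean value is asymptotically `1`. For the Gaussian random wave its variance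
is `gauss R - 1`, a positive number.

The theorem: the variance of the random wave is a lower bound for every sequence, at every scale `R`
and on every part of the plane. So the masses in discs of `R` wavelengths are never equidistributed in
mean square, whatever is true for the fourth moments. The lower bound is attained, at one scale or at
all scales, if and only if the fourth moments are those of the Gaussian law (the case `n = 4` of the
question), and the variance is bounded, at one scale or at all scales, if and only if the fourth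
moments are bounded.

Proof idea. Suppose that the variance with the weight `ψ` is smaller than the bound for infinitely
many `n`. On this subsequence the local elliptic estimates, localised to the open set `{ψ > 0}`, bound
the fourth moments on its compact subsets; there the identity between local masses and fourth moments
(hand-in PlanckScaleEquidistribution, whose modules are localised here) and the lower bound `3` for the
fourth moment give the random wave value at least: a contradiction. In the extremal case compare `ψ`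
with a smaller function by applying the lower bound to the difference.
-/

set_option autoImplicit false
open MeasureTheory Filter Topology Complex
open scoped ContDiff

namespace Pool.Agent.Results.MP_a54f13_nt.PlanckScaleVariance

open Pool.Agent.Helper93K9.PE

/-- the derivative in the direction `1` -/
noncomputable def dx {E : Type} [NormedAddCommGroup E] [NormedSpace ℝ E] (f : ℂ → E) (z : ℂ) : E :=
  fderiv ℝ f z 1

/-- the derivative in the direction `I` -/
noncomputable def dy {E : Type} [NormedAddCommGroup E] [NormedSpace ℝ E] (f : ℂ → E) (z : ℂ) : E :=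
  fderiv ℝ f z I

/-- test functions: smooth with compact support contained in `U` -/
def TF (U : Set ℂ) (φ : ℂ → ℝ) : Prop := ContDiff ℝ ∞ φ ∧ HasCompactSupport φ ∧ tsupport φ ⊆ U

/-- the open upper half plane -/
def HH : Set ℂ := {z | 0 < z.im}

/-- the operator `f ↦ lam^{-1/2} y (∂x f - i ∂y f)` -/
noncomputable def RO (lam : ℝ) (f : ℂ → ℂ) (z : ℂ) : ℂ :=
  ((z.im / √lam : ℝ) : ℂ) * (dx f z - I * dy f z)

/-- the integral `∫ ψ F dμ` -/
noncomputable def II (ψ F : ℂ → ℝ) : ℝ := ∫ z, ψ z * F z / z.im ^ 2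

/-- the mean of `F` (with values in `ℝ` or `ℂ`) over the disc with centre `z` and radius `r * im z` -/
noncomputable def mean {E : Type} [NormedAddCommGroup E] [NormedSpace ℝ E] (r : ℝ) (F : ℂ → E)
    (z : ℂ) : E := (1 / (Real.pi * (r * z.im) ^ 2)) • ∫ w in Metric.ball z (r * z.im), F w

/-- the mean of `cos (y Re w)` over the unit disc, `2 J₁(y) / y` -/
noncomputable def J (y : ℝ) : ℝ :=
  1 / Real.pi * ∫ w in Metric.ball (0 : ℂ) 1, Real.cos (y * w.re)

/-- the mean square of the mass of a disc of radius `R` for the random wave of frequency `1` -/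
noncomputable def gauss (R : ℝ) : ℝ :=
  1 + 1 / Real.pi * ∫ θ in (0 : ℝ)..(2 * Real.pi), J (R * √(2 - 2 * Real.cos θ)) ^ 2

/-- the mean square deviation from `1` of the mass at the scale of `R` wavelengths, with weight `ψ` -/
noncomputable def VV (R lam : ℝ) (f ψ : ℂ → ℝ) : ℝ :=
  II ψ (fun z => (mean (R / √lam) (fun w => f w ^ 2) z - 1) ^ 2)

/-- **Result.** Let `f n` be real solutions of `-y²(∂x² + ∂y²) f = λ_n f`, `λ_n = 1/4 + t_n²`, on the
upper half plane, `t_n → ∞`, satisfying microlocal quantum unique ergodicity.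
`V_n(R, ψ) = ∫ ψ (mean (R/√λ_n) f_n² - 1)² dμ`.

(A) For all `R > 0` and all `ψ ≥ 0`: `liminf V_n(R, ψ) ≥ (gauss R - 1) ∫ ψ dμ`, and
`gauss R - 1 ≥ min(1, 1/R) / 13 > 0`.

(B) If `limsup V_n(R, ψ) ≤ (gauss R - 1) ∫ ψ dμ` for one `R > 0` and one `ψ ≥ 0` then
`∫ χ f_n⁴ dμ → 3 ∫ χ dμ` for all test functions `χ` supported in `{ψ > 0}`.

(C) For every open set `Ω` of the upper half plane the following are equivalent:
(1) `∫ χ f_n⁴ dμ → 3 ∫ χ dμ` for all test functions `χ` on `Ω`; (2) for all `R > 0` and all `χ` on `Ω`,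
`V_n(R, χ) → (gauss R - 1) ∫ χ dμ`; (3) for one `R > 0` and all `χ ≥ 0` on `Ω`,
`limsup V_n(R, χ) ≤ (gauss R - 1) ∫ χ dμ`.

(D) Also equivalent are: (1) the integrals of `f_n⁴` over every compact subset of `Ω` are bounded;
(2) for all `R > 0` and all `χ ≥ 0` on `Ω`, `V_n(R, χ)` is bounded; (3) the same for one `R > 0`. -/
theorem result (t : ℕ → ℝ) (ht : Tendsto t atTop atTop) (f : ℕ → ℂ → ℝ)
    (hf : ∀ n, ContDiffOn ℝ ∞ (f n) HH)
    (heq : ∀ n, ∀ z ∈ HH,
      -(z.im ^ 2 * (dx (dx (f n)) z + dy (dy (f n)) z)) = (1 / 4 + t n ^ 2) * f n z)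
    (hqe : ∀ φ, TF HH φ → ∀ k : ℕ, Tendsto (fun n => ∫ z, ((φ z / z.im ^ 2 : ℝ) : ℂ) *
      ((f n z : ℂ) * (RO (1 / 4 + t n ^ 2))^[k] (fun w => (f n w : ℂ)) z)) atTop
      (𝓝 (if k = 0 then ((∫ z, φ z / z.im ^ 2 : ℝ) : ℂ) else 0))) :
    (∀ R : ℝ, 0 < R → min 1 (1 / R) / 13 ≤ gauss R - 1 ∧ ∀ ψ, TF HH ψ → (∀ z, 0 ≤ ψ z) →
      (∀ ε : ℝ, 0 < ε → ∀ᶠ n in atTop,
        (gauss R - 1) * II ψ (fun _ => 1) - ε ≤ VV R (1 / 4 + t n ^ 2) (f n) ψ) ∧
      ((∀ ε : ℝ, 0 < ε → ∀ᶠ n in atTop,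
        VV R (1 / 4 + t n ^ 2) (f n) ψ ≤ (gauss R - 1) * II ψ (fun _ => 1) + ε) →
        ∀ χ, TF {z | 0 < ψ z} χ →
          Tendsto (fun n => II χ (fun z => f n z ^ 4)) atTop (𝓝 (3 * II χ (fun _ => 1))))) ∧
    ∀ Ω : Set ℂ, IsOpen Ω → Ω ⊆ HH →
      List.TFAE [
        ∀ χ, TF Ω χ → Tendsto (fun n => II χ (fun z => f n z ^ 4)) atTop
          (𝓝 (3 * II χ (fun _ => 1))),
        ∀ R : ℝ, 0 < R → ∀ χ, TF Ω χ → Tendsto (fun n => VV R (1 / 4 + t n ^ 2) (f n) χ) atTop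
          (𝓝 ((gauss R - 1) * II χ (fun _ => 1))),
        ∃ R : ℝ, 0 < R ∧ ∀ χ, TF Ω χ → (∀ z, 0 ≤ χ z) → ∀ ε : ℝ, 0 < ε → ∀ᶠ n in atTop,
          VV R (1 / 4 + t n ^ 2) (f n) χ ≤ (gauss R - 1) * II χ (fun _ => 1) + ε] ∧
      List.TFAE [
        ∀ K : Set ℂ, IsCompact K → K ⊆ Ω → ∃ C : ℝ, ∀ᶠ n in atTop, ∫ z in K, f n z ^ 4 ≤ C,
        ∀ R : ℝ, 0 < R → ∀ χ, TF Ω χ → (∀ z, 0 ≤ χ z) → ∃ C : ℝ, ∀ᶠ n in atTop,
          VV R (1 / 4 + t n ^ 2) (f n) χ ≤ C,
        ∃ R : ℝ, 0 < R ∧ ∀ χ, TF Ω χ → (∀ z, 0 ≤ χ z) → ∃ C : ℝ, ∀ᶠ n in atTop,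
          VV R (1 / 4 + t n ^ 2) (f n) χ ≤ C] := by
  have hpos : ∀ n, 0 < 1 / 4 + t n ^ 2 := fun n => by positivity
  have hlam : Tendsto (fun n => 1 / 4 + t n ^ 2) atTop atTop :=
    tendsto_atTop_add_const_left _ _ ((tendsto_pow_atTop two_ne_zero).comp ht)
  have S : Seq (fun n => 1 / 4 + t n ^ 2) f := by
    refine ⟨hpos, hlam, hf, fun n z hz => ?_, hqe⟩
    have h1 := heq n z hz
    have h2 : Pool.Agent.W745.RW.lap (f n) z = dx (dx (f n)) z + dy (dy (f n)) z := rfl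
    rw [h2]; linarith
  have hJ : ∀ y, J y = jj y := J_eq
  have hg : ∀ R, gauss R = gR R := fun R => by simp only [gauss, gR, hJ]
  -- the integrals
  have eII : ∀ (ψ F : ℂ → ℝ), II ψ F = ∫ z, ψ z / z.im ^ 2 * F z := by
    intro ψ F
    unfold II
    congr 1; funext z; ring
  have e1 : ∀ ψ, II ψ (fun _ => 1) = ∫ z, ψ z / z.im ^ 2 := by
    intro ψ
    rw [eII]; simp only [mul_one]
  have tU : ∀ {Ω : Set ℂ} {ψ : ℂ → ℝ}, Ω ⊆ HH → TF Ω ψ → TF HH ψ := fun hΩ hψ =>
    ⟨hψ.1, hψ.2.1, hψ.2.2.trans hΩ⟩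
  have eV : ∀ (R : ℝ), 0 < R → ∀ ψ, TF HH ψ → ∀ n, VV R (1 / 4 + t n ^ 2) (f n) ψ =
      ∫ z, ψ z / z.im ^ 2 * (AR R (1 / 4 + t n ^ 2) (f n) z - 1) ^ 2 := by
    intro R hR ψ hψ n
    unfold VV
    rw [eII]
    congr 1; funext z
    by_cases hz : z ∈ HH
    · have := FinL.mn_AR S hR n hz
      have h2 : mean (R / √(1 / 4 + t n ^ 2)) (fun w => f n w ^ 2) z =
          AR R (1 / 4 + t n ^ 2) (f n) z := this
      rw [h2]
    · rw [Pool.Agent.TH294.RS.TF.zero hψ hz]; simp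
  -- transfer between `ψ` and `ψ / y²`
  have mulc : ∀ {Ω : Set ℂ} {ψ a : ℂ → ℝ}, IsOpen Ω → Ω ⊆ HH → TF Ω ψ → ContDiffOn ℝ ∞ a HH →
      TF Ω (fun z => ψ z * a z) := fun hΩ hΩU hψ ha =>
    Pool.Agent.TH294.RS.TF.mulc hΩ hψ (ha.mono hΩU)
  have sy : ContDiffOn ℝ ∞ (fun z : ℂ => (z.im ^ 2)⁻¹) HH := by
    refine ContDiffOn.inv ((imCLM.contDiff.pow 2).contDiffOn) fun z hz => ?_
    have : (0 : ℝ) < z.im := hz
    exact pow_ne_zero 2 this.ne'
  have up : ∀ {Ω : Set ℂ} {ψ : ℂ → ℝ}, IsOpen Ω → Ω ⊆ HH → TF Ω ψ →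
      TF Ω (fun z => ψ z / z.im ^ 2) := fun hΩ hΩU hψ => mulc hΩ hΩU hψ sy
  have dn : ∀ {Ω : Set ℂ} {ψ : ℂ → ℝ}, IsOpen Ω → Ω ⊆ HH → TF Ω ψ →
      TF Ω (fun z => ψ z * z.im ^ 2) := fun hΩ hΩU hψ =>
    mulc hΩ hΩU hψ (imCLM.contDiff.pow 2).contDiffOn
  have yy : ∀ ψ, TF HH ψ → ∀ z, ψ z * z.im ^ 2 / z.im ^ 2 = ψ z := fun ψ hψ z => FinL.yy hψ z
  have nn : ∀ ψ : ℂ → ℝ, (∀ z, 0 ≤ ψ z) → ∀ z : ℂ, 0 ≤ ψ z / z.im ^ 2 := fun ψ h z =>
    div_nonneg (h z) (sq_nonneg _)
  have nn' : ∀ ψ : ℂ → ℝ, (∀ z, 0 ≤ ψ z) → ∀ z : ℂ, 0 ≤ ψ z * z.im ^ 2 := fun ψ h z =>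
    mul_nonneg (h z) (sq_nonneg _)
  have hHo : IsOpen HH := FinL.UHo
  have q1 : ∀ Ω : Set ℂ, IsOpen Ω → Ω ⊆ HH → ((∀ χ, TF Ω χ →
      Tendsto (fun n => II χ (fun z => f n z ^ 4)) atTop (𝓝 (3 * II χ (fun _ => 1)))) ↔
        VarL.M4B Ω f) := by
    intro Ω hΩ hΩU
    constructor
    · intro H φ hφ
      have := H _ (dn hΩ hΩU hφ)
      simp only [eII, yy φ (tU hΩU hφ), mul_one] at this
      exact this
    · intro H ψ hψ
      simp only [eII, mul_one]
      exact H _ (up hΩ hΩU hψ)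
  refine ⟨fun R hR => ⟨?_, fun ψ hψ hψ0 => ⟨?_, ?_⟩⟩, fun Ω hΩ hΩU => ⟨?_, ?_⟩⟩
  · rw [hg]
    exact VarL.gR_low hR
  · intro ε hε
    have h1 := VarL.var_ge idd gr fm S (up hHo (le_refl _) hψ) (nn ψ hψ0) hR hε
    filter_upwards [h1] with n hn
    rw [eV R hR ψ hψ n, e1, hg]
    exact hn
  · intro H
    have hψ2 := up hHo (le_refl _) hψ
    have h1 := VarL.rig2 idd gr fm S hψ2 (nn ψ hψ0) hR (fun ε hε => by
      filter_upwards [H ε hε] with n hn
      rw [eV R hR ψ hψ n, e1, hg] at hn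
      exact hn)
    have hsub : {z | 0 < ψ z} ⊆ {z | 0 < ψ z / z.im ^ 2} := by
      intro z hz
      have hz2 : 0 < ψ z := hz
      have hzH : z ∈ HH := by
        by_contra h
        rw [Pool.Agent.TH294.RS.TF.zero hψ h] at hz2
        exact lt_irrefl _ hz2
      have hy : 0 < z.im := hzH
      show 0 < ψ z / z.im ^ 2
      positivity
    have hPo : IsOpen {z | 0 < ψ z} := isOpen_lt continuous_const hψ.1.continuous
    have hPU : {z | 0 < ψ z} ⊆ HH := by
      intro z hz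
      have hz2 : 0 < ψ z := hz
      by_contra h
      rw [Pool.Agent.TH294.RS.TF.zero hψ h] at hz2
      exact lt_irrefl _ hz2
    refine (q1 _ hPo hPU).2 fun φ hφ => h1 φ ⟨hφ.1, hφ.2.1, hφ.2.2.trans hsub⟩
  · have key := VarL.tfaeV idd gr fm S hΩ hΩU
    have q2 : ∀ R : ℝ, 0 < R → ((∀ χ, TF Ω χ → Tendsto (fun n =>
        VV R (1 / 4 + t n ^ 2) (f n) χ) atTop (𝓝 ((gauss R - 1) * II χ (fun _ => 1)))) ↔
        VarL.VRB Ω (fun n => 1 / 4 + t n ^ 2) f R) := by
      intro R hR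
      constructor
      · intro H φ hφ
        have := H _ (dn hΩ hΩU hφ)
        simp only [eV R hR _ (dn hHo (le_refl _) (tU hΩU hφ)), e1, yy φ (tU hΩU hφ), hg] at this
        exact this
      · intro H ψ hψ
        simp only [eV R hR _ (tU hΩU hψ), e1, hg]
        exact H _ (up hΩ hΩU hψ)
    have q3 : ∀ R : ℝ, 0 < R → ((∀ χ, TF Ω χ → (∀ z, 0 ≤ χ z) → ∀ ε : ℝ, 0 < ε →
        ∀ᶠ n in atTop, VV R (1 / 4 + t n ^ 2) (f n) χ ≤ (gauss R - 1) * II χ (fun _ => 1) + ε) ↔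
        VarL.VUB Ω (fun n => 1 / 4 + t n ^ 2) f R) := by
      intro R hR
      constructor
      · intro H φ hφ hφ0 ε hε
        have := H _ (dn hΩ hΩU hφ) (nn' φ hφ0) ε hε
        simp only [eV R hR _ (dn hHo (le_refl _) (tU hΩU hφ)), e1, yy φ (tU hΩU hφ), hg] at this
        exact this
      · intro H ψ hψ hψ0 ε hε
        simp only [eV R hR _ (tU hΩU hψ), e1, hg]
        exact H _ (up hΩ hΩU hψ) (nn ψ hψ0) ε hε
    rw [q1 Ω hΩ hΩU, forall_congr' fun R => forall_congr' fun hR => q2 R hR,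
      exists_congr fun R => and_congr_right fun hR => q3 R hR]
    exact key
  · have key := VarL.tfaeB idd fm S hΩ hΩU
    have q4 : ∀ R : ℝ, 0 < R → ((∀ χ, TF Ω χ → (∀ z, 0 ≤ χ z) → ∃ C : ℝ,
        ∀ᶠ n in atTop, VV R (1 / 4 + t n ^ 2) (f n) χ ≤ C) ↔
        VarL.BRB Ω (fun n => 1 / 4 + t n ^ 2) f R) := by
      intro R hR
      constructor
      · intro H φ hφ hφ0
        have := H _ (dn hΩ hΩU hφ) (nn' φ hφ0)
        simp only [eV R hR _ (dn hHo (le_refl _) (tU hΩU hφ)), yy φ (tU hΩU hφ)] at this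
        exact this
      · intro H ψ hψ hψ0
        simp only [eV R hR _ (tU hΩU hψ)]
        exact H _ (up hΩ hΩU hψ) (nn ψ hψ0)
    rw [forall_congr' fun R => forall_congr' fun hR => q4 R hR,
      exists_congr fun R => and_congr_right fun hR => q4 R hR]
    exact key

end Pool.Agent.Results.MP_a54f13_nt.PlanckScaleVariance
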